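import Pool.Agent.R537.CO.Mem

/-!
# Collinearity logic with groups of at most `k ≥ 3` variables is `∃ℝ`-complete

Sketch of the hardness proof.  A system of constraints `x = 1`, `x + y = z`, `x y = z` over the
reals is turned into a list of collinearity constraints on triples of points, by quadrilateral gates
on the slopes of the lines through one point; the nondegeneracy conditions are the distinctness of
the points and the noncollinearity of three base points.  Every triple `X`, `Y`, `Z` is then
replaced by the eight other lines of a Pappus configuration on `X`, `Y`, `Z` and six new points:
eight groups of three variables; distinct groups share at most one variable.  The distinctness of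
two points `u`, `v` is expressed by a negative atom `¬ COL(u, v, w)` with a fresh variable `w`.
-/

namespace Pool.Agent.Results.MP_8c8e41_lc.GroupsOfThree

open Pool.Agent.NPC Pool.Agent.NPC.ER Pool.Agent.NPC.R537CO

/-- For every fixed `k ≥ 3`, the problem `COL_k` is `∃ℝ`-complete under polynomial-time many-one
reductions. -/
theorem result : ∀ k : ℕ, 3 ≤ k → ERComplete (lang (COLk k)) :=
  fun k hk => ⟨colk_mem k, colk_hard hk⟩

end Pool.Agent.Results.MP_8c8e41_lc.GroupsOfThree
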